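import Pool.Agent.Q8.OW.Whole

/-!
# Orlov's conjecture: the degrees congruent to the dimension modulo four are isometric

`C : Correspondences n ι` is a class of correspondences between smooth projective complex varieties
`X i` of dimension `n` (algebraic cycles modulo homological equivalence, if the standard conjecture of
Lefschetz type holds; André's motivated cycles; morphisms of rational Hodge structures). If `X i` and
`X j` are derived equivalent then the parts of their motives in the degrees congruent to `n` modulo
`4`, with rational coefficients and up to Tate twists, are isometric for the intersection forms.

The proof is a Witt cancellation in the ring of correspondences: the Mukai pairing is the intersection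
form up to signs which depend on the degree modulo `4`.
-/

open Pool.Agent.Q8.OM

namespace Pool.Agent.Results.MP_5c0b30_ag.IsometricModFour

theorem result {n : ℕ} {ι : Type} (C : Correspondences n ι) (hc : C.Chern) {i j : ι}
    (h : C.DerivedEquivalent i j) : C.Isometric i j (P0 n) :=
  Correspondences.isometric_P0 hc h

end Pool.Agent.Results.MP_5c0b30_ag.IsometricModFour
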