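import Pool.Agent.Q8.OW.Whole

/-!
# Orlov's conjecture: the high level part of the middle cohomology with its intersection form

`C : Correspondences n ι` is a class of correspondences between smooth projective complex varieties
`X i` of dimension `n` (algebraic cycles modulo homological equivalence, if the standard conjecture of
Lefschetz type holds; André's motivated cycles; morphisms of rational Hodge structures). If `X i` and
`X j` are derived equivalent then the orthogonal complements in `H ^ n` of the sums of the images of
the correspondences of level at most `n - 4` (of the largest sub-Hodge structures of level at most
`n - 4`, if the class is all morphisms of Hodge structures) are isometric for the intersection forms.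
For `n = 4` these are the transcendental parts of `H ^ 4`.
-/

open Pool.Agent.Q8.OM

namespace Pool.Agent.Results.MP_5c0b30_ag.IsometricTopPart

theorem result {n : ℕ} {ι : Type} (C : Correspondences n ι) (hc : C.Chern) {i j : ι}
    (h : C.DerivedEquivalent i j) : C.IsometricTop i j (n - 4) :=
  Correspondences.isometricTop hc h le_rfl

end Pool.Agent.Results.MP_5c0b30_ag.IsometricTopPart
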