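import Pool.Agent.Q8.OM.Pub

/-!
# Orlov's conjecture: motives of derived equivalent varieties by Sylvester inertia

`C : Correspondences n ι` is a class of correspondences between smooth projective complex varieties
`X i` of dimension `n` (algebraic cycles modulo homological equivalence, if the standard conjecture of
Lefschetz type holds; André's motivated cycles; morphisms of rational Hodge structures). If `X i` and
`X j` are derived equivalent then for the motives defined by `C`, up to Tate twists,

* the parts of degrees congruent to `n` modulo `4` are isomorphic, and so are the parts in the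
  degrees `n - 2, n - 6, …` and the parts in the degrees `n - 1, n - 3, …`;
* the parts of degree `n` are isomorphic if `n ≤ 4`, those of degree `n - 2` if `n ≤ 6`;
* if the parts of degree `d` are isomorphic for `1 ≤ d ≤ n - 3` (for `n = 4` this is a theorem of Popa
  and Schnell, for `n ≤ 3` there is no condition) the motives of `X i` and `X j` are isomorphic, and
  their Chow motives are isomorphic if they are finite dimensional.
-/

open CategoryTheory Pool.Agent.Q8.OM

namespace Pool.Agent.Results.MP_5c0b30_ag.MotivesByInertia

universe u v

theorem result {n : ℕ} {ι : Type} (C : Correspondences n ι) {i j : ι}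
    (h : C.DerivedEquivalent i j) :
    (C.Iso i j (P0 n) ∧ C.Iso i j (Pl n) ∧ C.Iso i j (Pm n)) ∧
    (n ≤ 4 → C.Iso i j {(n : ℤ)}) ∧ (n ≤ 6 → C.Iso i j {(n : ℤ) - 2}) ∧
    ((∀ d : ℤ, 1 ≤ d → d + 3 ≤ n → C.Iso i j {d}) → C.IsoMotives i j ∧
      ∀ (K : Type u) [Category.{v} K] [Preadditive K] (L : C.Lift K),
        Nonempty (L.h i ≅ L.h j)) := by
  have h' := h.theory
  refine ⟨⟨Correspondences.iso_iff.mpr h'.iso.1, Correspondences.iso_iff.mpr h'.iso.2.1,
    Correspondences.iso_iff.mpr h'.iso.2.2⟩,
    fun hn => Correspondences.iso_iff.mpr (h'.top.1 fun d h1 h2 => by omega),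
    fun hn => Correspondences.iso_iff.mpr (h'.top.2.1 fun d h1 h2 => by omega), fun hl => ?_⟩
  have hm := h'.isoMotives fun d h1 h2 => Correspondences.iso_iff.mp (hl d h1 h2)
  exact ⟨Correspondences.isoMotives_of hm, fun _ _ _ L => L.theory.iso hm⟩

end Pool.Agent.Results.MP_5c0b30_ag.MotivesByInertia
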